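import Pool.Agent.H80.JE.Targets
import Pool.Agent.H80.JD.Targets

namespace Pool.Agent.H64.JE

open Finset Filter Topology Pool.Agent.H80.JD Pool.Agent.H80.JE

/-- `Φ` is nonnegative -/
lemma phi_nonneg (t : ℝ) : 0 ≤ Φ t := MeasureTheory.measureReal_nonneg

/-- `Φ` is nondecreasing -/
lemma phi_mono {a b : ℝ} (h : a ≤ b) : Φ a ≤ Φ b :=
  MeasureTheory.measureReal_mono (Set.Icc_subset_Icc (by linarith) h)

/-- the curve is continuous, nonincreasing and nonnegative -/
theorem cu3 (hGL : T_GL) : T_CU3 := by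
  refine ⟨?_, fun c => phi_nonneg _, ?_⟩
  · intro c hc
    have hs : ContinuousAt (fun c : ℝ => Real.sqrt (Real.log (2 / (Real.pi * c)))) c := by
      have hpc : Real.pi * c ≠ 0 := (mul_pos Real.pi_pos hc).ne'
      have h1 : ContinuousAt (fun c : ℝ => 2 / (Real.pi * c)) c :=
        continuousAt_const.div (continuousAt_const.mul continuousAt_id) hpc
      have h2 : (2 / (Real.pi * c)) ≠ 0 := by
        have := mul_pos Real.pi_pos hc
        positivity
      exact (h1.log h2).sqrt
    have hl : ∀ a b : ℝ, 0 ≤ a → 0 ≤ b → |Φ b - Φ a| ≤ |b - a| := by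
      intro a b ha hb
      rcases le_total a b with h | h
      · rw [abs_of_nonneg (sub_nonneg.2 (phi_mono h)), abs_of_nonneg (sub_nonneg.2 h)]
        exact hGL.1 a b ha h
      · rw [abs_of_nonpos (sub_nonpos.2 (phi_mono h)), abs_of_nonpos (sub_nonpos.2 h), neg_sub,
          neg_sub]
        exact hGL.1 b a hb h
    unfold ContinuousAt at hs ⊢
    rw [tendsto_iff_norm_sub_tendsto_zero] at hs ⊢
    refine squeeze_zero (fun x => norm_nonneg _) (fun x => ?_) hs
    rw [Real.norm_eq_abs, Real.norm_eq_abs]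
    exact hl _ _ (Real.sqrt_nonneg _) (Real.sqrt_nonneg _)
  · intro c d hc hcd
    refine phi_mono (Real.sqrt_le_sqrt (Real.log_le_log ?_ ?_))
    · have := mul_pos Real.pi_pos (lt_of_lt_of_le hc hcd)
      positivity
    · have h1 := mul_pos Real.pi_pos hc
      exact div_le_div_of_nonneg_left (by norm_num) h1
        (mul_le_mul_of_nonneg_left hcd Real.pi_pos.le)

end Pool.Agent.H64.JE
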